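import Mathlib

set_option autoImplicit false

/-!
# [H10 PT Fld] the patched multiplication, back-up seat (helper10, idea of helper90)
-/

namespace Pool.Agent.H10.PT

open Classical in
/-- the involution `x ↦ x + c` on `V` -/
noncomputable def th {F : Type} [Field F] (V : AddSubgroup F) (c x : F) : F := if x ∈ V then x + c else x

/-- the conjugate of the multiplication by `a` -/
noncomputable def g {F : Type} [Field F] (V : AddSubgroup F) (c a x : F) : F := th V c (a * th V c x)

section

variable {F : Type} [Field F] {V : AddSubgroup F} {c a : F}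

theorem th_pos {x : F} (h : x ∈ V) : th V c x = x + c := if_pos h

theorem th_neg {x : F} (h : x ∉ V) : th V c x = x := if_neg h

theorem th_mem (hc : c ∈ V) (x : F) : th V c x ∈ V ↔ x ∈ V := by
  unfold th
  by_cases h : x ∈ V
  · simp only [h, if_true, iff_true]; exact V.add_mem h hc
  · simp only [h, if_false]

theorem th_th (h2 : (2 : F) = 0) (hc : c ∈ V) (x : F) : th V c (th V c x) = x := by
  by_cases h : x ∈ V
  · have h1 : th V c x ∈ V := (th_mem hc x).2 h
    rw [th_pos h1, th_pos h]
    linear_combination c * h2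
  · have h1 : ¬ th V c x ∈ V := fun h' => h ((th_mem hc x).1 h')
    have e2 : th V c x = x := by unfold th; rw [if_neg h]
    rw [e2, e2]

theorem th_inj (h2 : (2 : F) = 0) (hc : c ∈ V) {x y : F} (h : th V c x = th V c y) : x = y := by
  rw [← th_th h2 hc x, h, th_th h2 hc y]

theorem g_iter (h2 : (2 : F) = 0) (hc : c ∈ V) (n : ℕ) (x : F) : (g V c a)^[n] x = th V c (a ^ n * th V c x) := by
  induction n generalizing x with
  | zero => simp only [Function.iterate_zero, id, pow_zero, one_mul]; exact (th_th h2 hc x).symm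
  | succ n ih =>
    rw [Function.iterate_succ_apply, ih]
    unfold g
    rw [th_th h2 hc]
    congr 1
    ring

theorem g_inj (h2 : (2 : F) = 0) (hc : c ∈ V) (ha : a ≠ 0) {x y : F} (h : g V c a x = g V c a y) : x = y := by
  unfold g at h
  exact th_inj h2 hc (mul_left_cancel₀ ha (th_inj h2 hc h))

theorem th_c (h2 : (2 : F) = 0) (hc : c ∈ V) : th V c c = 0 := by
  unfold th; rw [if_pos hc]; linear_combination c * h2

theorem g_c (h2 : (2 : F) = 0) (hc : c ∈ V) : g V c a c = c := by
  unfold g
  rw [th_c h2 hc, mul_zero]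
  unfold th
  rw [if_pos V.zero_mem, zero_add]

/-- the main lemma: `x ↦ θ (b θ x) + x` is injective if `c = (b + 1) v`, `v ∈ V`, `b v ∈ V` -/
theorem gen_inj (h2 : (2 : F) = 0) {b v : F} (hc : c ∈ V) (hb : b + 1 ≠ 0) (hv : c = (b + 1) * v) (hvV : v ∈ V)
    (hbv : b * v ∈ V) {x y : F} (h : th V c (b * th V c x) + x = th V c (b * th V c y) + y) : x = y := by
  classical
  obtain ⟨z, hz⟩ : ∃ z, z = th V c x := ⟨_, rfl⟩
  obtain ⟨w, hw⟩ : ∃ w, w = th V c y := ⟨_, rfl⟩
  have hx : x = th V c z := by rw [hz, th_th h2 hc]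
  have hy : y = th V c w := by rw [hw, th_th h2 hc]
  rw [← hz, ← hw, hx, hy] at h
  have key : ∀ z : F, th V c (b * z) + th V c z =
      (b + 1) * (z + ((if b * z ∈ V then v else 0) + (if z ∈ V then v else 0))) := by
    intro z
    unfold th
    by_cases h1 : b * z ∈ V <;> by_cases h3 : z ∈ V <;> simp only [h1, h3, if_true, if_false] <;>
      first | (rw [hv]; ring) | ring
  rw [key, key] at h
  have h4 := mul_left_cancel₀ hb h
  have key2 : ∀ z : F, ((if b * z ∈ V then v else 0) + (if z ∈ V then v else 0) = (0 : F)) ∨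
      ((if b * z ∈ V then v else 0) + (if z ∈ V then v else 0) = v) := by
    intro z
    by_cases h1 : b * z ∈ V <;> by_cases h3 : z ∈ V <;> simp only [h1, h3, if_true, if_false]
    · left; linear_combination v * h2
    · right; ring
    · right; ring
    · left; ring
  have key3 : ∀ z : F, (b * (z + v) ∈ V ↔ b * z ∈ V) ∧ (z + v ∈ V ↔ z ∈ V) := by
    intro z
    constructor
    · rw [mul_add]; exact V.add_mem_cancel_right hbv
    · exact V.add_mem_cancel_right hvV
  have hvv : v + v = 0 := by linear_combination v * h2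
  have hzw : z = w := by
    rcases key2 z with e1 | e1 <;> rcases key2 w with e2 | e2
    · rw [e1, e2, add_zero, add_zero] at h4; exact h4
    · -- z = w + v
      rw [e1, e2, add_zero] at h4
      have e3 := e1
      rw [h4] at e3
      simp only [(key3 w).1, (key3 w).2] at e3
      rw [e3] at e2
      rw [h4, ← e2, add_zero]
    · rw [e1, e2, add_zero] at h4
      have e3 := e2
      rw [← h4] at e3
      simp only [(key3 z).1, (key3 z).2] at e3
      rw [e3] at e1
      rw [← h4, ← e1, add_zero]
    · rw [e1, e2] at h4; exact add_right_cancel h4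
  rw [hx, hy, hzw]

theorem lin {x : F} (h1 : x ∉ V) (h3 : a * x ∉ V) : g V c a x = a * x := by
  unfold g
  have e1 : th V c x = x := by unfold th; rw [if_neg h1]
  rw [e1]
  unfold th
  rw [if_neg h3]

end

end Pool.Agent.H10.PT
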