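import Pool.Agent.H10.PT.Fld

set_option autoImplicit false

/-!
# [H10 PT Grp] not based on a group
-/

namespace Pool.Agent.H10.PT

section

variable {F : Type} [Field F] [Fintype F]

open Classical in
/-- a shift which avoids `S` at four places -/
theorem shift (S : Finset F) (h : 4 * S.card < Fintype.card F) (x1 x2 x3 x4 : F) :
    ∃ w : F, x1 + w ∉ S ∧ x2 + w ∉ S ∧ x3 + w ∉ S ∧ x4 + w ∉ S := by
  by_contra hcon
  push Not at hcon
  have hsub : (Finset.univ : Finset F) ⊆ ((S.image (fun s => s - x1) ∪ S.image (fun s => s - x2)) ∪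
      S.image (fun s => s - x3)) ∪ S.image (fun s => s - x4) := by
    intro w _
    simp only [Finset.mem_union, Finset.mem_image]
    by_cases h1 : x1 + w ∈ S
    · left; left; left; exact ⟨x1 + w, h1, by ring⟩
    by_cases h2 : x2 + w ∈ S
    · left; left; right; exact ⟨x2 + w, h2, by ring⟩
    by_cases h3 : x3 + w ∈ S
    · left; right; exact ⟨x3 + w, h3, by ring⟩
    · right; exact ⟨x4 + w, hcon w h1 h2 h3, by ring⟩
  have h1 := Finset.card_le_card hsub
  have c1 := Finset.card_union_le ((S.image (fun s => s - x1) ∪ S.image (fun s => s - x2)) ∪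
      S.image (fun s => s - x3)) (S.image (fun s => s - x4))
  have c2 := Finset.card_union_le (S.image (fun s => s - x1) ∪ S.image (fun s => s - x2))
      (S.image (fun s => s - x3))
  have c3 := Finset.card_union_le (S.image (fun s => s - x1)) (S.image (fun s => s - x2))
  have d1 := Finset.card_image_le (s := S) (f := fun s => s - x1)
  have d2 := Finset.card_image_le (s := S) (f := fun s => s - x2)
  have d3 := Finset.card_image_le (s := S) (f := fun s => s - x3)
  have d4 := Finset.card_image_le (s := S) (f := fun s => s - x4)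
  rw [Finset.card_univ] at h1
  omega

/-- not group based: `f x = a x` outside a set of less than a quarter of the elements, and `f c ≠ a c` -/
theorem not_group (h2 : (2 : F) = 0) (f : F → F) (a c : F) (S : Finset F) (hS : 4 * S.card < Fintype.card F)
    (hf : ∀ x, x ∉ S → f x = a * x) (hc : f c ≠ a * c) (G : Type) [Group G] (r s t : F → G)
    (ht : Function.Injective t) (H : ∀ i j : F, t (i + f (j - i)) = r i * s j) : False := by
  obtain ⟨p, hp, -, -, -⟩ := shift S hS c c c c
  obtain ⟨q, hq1, hq2, -, -⟩ := shift S hS c (c + p) c c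
  obtain ⟨w, w1, w2, w3, w4⟩ := shift S hS c (c + p) (c + q) (c + p + q)
  -- cells: rows 0, q; columns
  -- differences: (0, c) : c ; (0, c+p) : c + p ; (q, c) : c - q = c + q ; (q, c + p) : c + p + q
  have hneg : ∀ x : F, -x = x := fun x => by linear_combination (-x) * h2
  have hL : ∀ i j : F, j - i ∉ S → t (i + a * (j - i)) = r i * s j := by
    intro i j hij
    rw [← H i j, hf _ hij]
  have e12 := hL 0 (c + p) (by rw [sub_zero]; exact hp)
  have e21 := hL q c (by rw [sub_eq_add_neg, hneg]; exact hq1)
  have e22 := hL q (c + p) (by rw [sub_eq_add_neg, hneg]; exact hq2)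
  have e11 := H 0 c
  have f11 := hL (a * w) (c + (1 + a) * w) (by
    have : c + (1 + a) * w - a * w = c + w := by ring
    rw [this]; exact w1)
  have f12 := hL (a * w) (c + p + (1 + a) * w) (by
    have : c + p + (1 + a) * w - a * w = c + p + w := by ring
    rw [this]; exact w2)
  have f21 := hL (q + a * w) (c + (1 + a) * w) (by
    have : c + (1 + a) * w - (q + a * w) = c + q + w := by linear_combination (-q) * h2
    rw [this]; exact w3)
  have f22 := hL (q + a * w) (c + p + (1 + a) * w) (by
    have : c + p + (1 + a) * w - (q + a * w) = c + p + q + w := by linear_combination (-q) * h2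
    rw [this]; exact w4)
  have g12 : t (0 + a * (c + p - 0)) = t (a * w + a * (c + p + (1 + a) * w - a * w)) := by
    congr 1; linear_combination (-(a * w)) * h2
  have g21 : t (q + a * (c - q)) = t (q + a * w + a * (c + (1 + a) * w - (q + a * w))) := by
    congr 1; linear_combination (-(a * w)) * h2
  have g22 : t (q + a * (c + p - q)) = t (q + a * w + a * (c + p + (1 + a) * w - (q + a * w))) := by
    congr 1; linear_combination (-(a * w)) * h2
  rw [e12, f12] at g12
  rw [e21, f21] at g21
  rw [e22, f22] at g22
  have hfin : r 0 * s c = r (a * w) * s (c + (1 + a) * w) := by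
    have k1 : r 0 * s c = (r 0 * s (c + p)) * (r q * s (c + p))⁻¹ * (r q * s c) := by group
    have k2 : r (a * w) * s (c + (1 + a) * w) = (r (a * w) * s (c + p + (1 + a) * w)) *
        (r (q + a * w) * s (c + p + (1 + a) * w))⁻¹ * (r (q + a * w) * s (c + (1 + a) * w)) := by group
    rw [k1, k2, g12, g21, g22]
  rw [← e11, ← f11] at hfin
  have h5 := ht hfin
  rw [sub_zero, zero_add] at h5
  apply hc
  linear_combination h5 + (a * w) * h2

end

end Pool.Agent.H10.PT
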