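import Pool.Agent.H10.PT.Trn

set_option autoImplicit false

/-!
# [H10 PT Six] every `k ≥ 6`
-/

namespace Pool.Agent.H10.PT

theorem six (k : ℕ) (hk : 6 ≤ k) : ∃ L : Fin (2 ^ k) → Equiv.Perm (Fin (2 ^ k)),
    (∀ j, Function.Injective (fun i => L i j)) ∧
    (∀ i, (∃! x, L i x = x) ∧ ∀ x y, L i x ≠ x → L i y ≠ y → ∃ n : ℕ, ((L i) ^ n) x = y) ∧
    (¬ ∃ (G : Type) (_ : Group G) (r c s : Fin (2 ^ k) ≃ G), ∀ i j, s (L i j) = r i * c j) ∧
    ∀ j, Function.Injective (fun i => (L i * L i) j) := by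
  classical
  haveI : Fact (Nat.Prime 2) := ⟨Nat.prime_two⟩
  have hum : k ≠ 0 := by omega
  let F := GaloisField 2 k
  letI : Fintype F := Fintype.ofFinite F
  have hcard : Fintype.card F = 2 ^ k := by
    rw [← Nat.card_eq_fintype_card]
    exact GaloisField.card 2 k hum
  have h64 : 64 ≤ 2 ^ k := by
    calc 64 = 2 ^ 6 := by norm_num
      _ ≤ 2 ^ k := Nat.pow_le_pow_right (by norm_num) hk
  have h2 : (2 : F) = 0 := by exact_mod_cast CharP.cast_eq_zero F 2
  obtain ⟨u, hu⟩ := IsCyclic.exists_generator (α := Fˣ)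
  have hgen : ∀ x : F, x ≠ 0 → ∃ n : ℕ, (u : F) ^ n = x := by
    intro x hx
    have h1 := hu (Units.mk0 x hx)
    rw [← mem_powers_iff_mem_zpowers] at h1
    obtain ⟨n, hn⟩ := h1
    refine ⟨n, ?_⟩
    have h3 := congrArg (fun z : Fˣ => (z : F)) hn
    simpa using h3
  obtain ⟨a, ha⟩ : ∃ a : F, a = (u : F) := ⟨_, rfl⟩
  rw [← ha] at hgen
  have ha0 : a ≠ 0 := by rw [ha]; exact u.ne_zero
  have ha1 : a ≠ 1 := by
    intro h1
    have hsub : (Finset.univ : Finset F) ⊆ {0, 1} := by
      intro x _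
      simp only [Finset.mem_insert, Finset.mem_singleton]
      by_cases hx : x = 0
      · left; exact hx
      · right
        obtain ⟨n, hn⟩ := hgen x hx
        rw [← hn, h1, one_pow]
    have h3 := Finset.card_le_card hsub
    rw [Finset.card_univ, hcard] at h3
    have h4 := Finset.card_le_two (a := (0 : F)) (b := 1)
    omega
  have hneg : ∀ x : F, -x = x := fun x => by linear_combination (-x) * h2
  have hb1 : a + 1 ≠ 0 := by
    intro h
    apply ha1
    linear_combination h - h2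
  have hb2 : a ^ 2 + 1 ≠ 0 := by
    intro h
    have h3 : (a + 1) * (a + 1) = 0 := by linear_combination h + a * h2
    exact hb1 (by rcases mul_eq_zero.1 h3 with h | h <;> exact h)
  let V : AddSubgroup F := (Submodule.span (ZMod 2) ({a, a ^ 2, a ^ 3} : Set F)).toAddSubgroup
  have hV1 : a ∈ V := Submodule.subset_span (by simp)
  have hV2 : a ^ 2 ∈ V := Submodule.subset_span (by simp)
  have hV3 : a ^ 3 ∈ V := Submodule.subset_span (by simp)
  obtain ⟨c, hcd⟩ : ∃ c : F, c = a ^ 3 + a := ⟨_, rfl⟩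
  have hc : c ∈ V := by rw [hcd]; exact V.add_mem hV3 hV1
  have hc0 : c ≠ 0 := by
    have : c = a * ((a + 1) * (a + 1)) := by rw [hcd]; linear_combination (-(a ^ 2)) * h2
    rw [this]
    exact mul_ne_zero ha0 (mul_ne_zero hb1 hb1)
  -- the set
  let A : Finset F := Finset.univ.filter (fun x => x ∈ V)
  let B : Finset F := Finset.univ.filter (fun x => a * x ∈ V)
  have hA : A.card ≤ 8 := by
    have hsub : A ⊆ (Finset.univ : Finset (ZMod 2 × ZMod 2 × ZMod 2)).image
        (fun t => t.1 • a + t.2.1 • a ^ 2 + t.2.2 • a ^ 3) := by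
      intro x hx
      have hx' : x ∈ Submodule.span (ZMod 2) ({a, a ^ 2, a ^ 3} : Set F) := (Finset.mem_filter.1 hx).2
      rw [Submodule.mem_span_triple] at hx'
      obtain ⟨p, q, r, h⟩ := hx'
      exact Finset.mem_image.2 ⟨(p, q, r), Finset.mem_univ _, h⟩
    refine le_trans (Finset.card_le_card hsub) (le_trans Finset.card_image_le ?_)
    rw [Finset.card_univ]
    simp [ZMod.card]
  have hB : B.card ≤ A.card := by
    refine Finset.card_le_card_of_injOn (fun x => a * x) ?_ ?_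
    · intro x hx
      have hx' := (Finset.mem_filter.1 hx).2
      exact Finset.mem_coe.2 (Finset.mem_filter.2 ⟨Finset.mem_univ _, hx'⟩)
    · intro x _ y _ h
      exact mul_left_cancel₀ ha0 h
  have hAB : 1 ≤ (A ∩ B).card := by
    refine Finset.card_pos.2 ⟨0, ?_⟩
    rw [Finset.mem_inter]
    refine ⟨Finset.mem_filter.2 ⟨Finset.mem_univ _, V.zero_mem⟩, Finset.mem_filter.2 ⟨Finset.mem_univ _, ?_⟩⟩
    rw [mul_zero]; exact V.zero_mem
  have hS := Finset.card_union_add_card_inter A B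
  refine trn k F h2 hcard (g V c a) c (g_c h2 hc) (fun x y h => g_inj h2 hc ha0 h) ?_ ?_ ?_ ?_
  · intro x y h
    refine gen_inj (b := a) (v := a ^ 2 + a) h2 hc hb1 ?_ (V.add_mem hV2 hV1) ?_ h
    · rw [hcd]; linear_combination (-(a ^ 2)) * h2
    · have : a * (a ^ 2 + a) = a ^ 3 + a ^ 2 := by ring
      rw [this]; exact V.add_mem hV3 hV2
  · intro x y h
    have e : ∀ x, g V c a (g V c a x) = th V c (a ^ 2 * th V c x) := fun x => g_iter h2 hc 2 x
    rw [e, e] at h
    refine gen_inj (b := a ^ 2) (v := a) h2 hc hb2 ?_ hV1 ?_ h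
    · rw [hcd]; ring
    · have : a ^ 2 * a = a ^ 3 := by ring
      rw [this]; exact hV3
  · intro x y hx hy
    have hz : ∀ x : F, x ≠ c → th V c x ≠ 0 := by
      intro x hx h
      apply hx
      apply th_inj h2 hc
      rw [h, th_c h2 hc]
    obtain ⟨n, hn⟩ := hgen (th V c y / th V c x) (div_ne_zero (hz y hy) (hz x hx))
    refine ⟨n, ?_⟩
    rw [g_iter h2 hc, hn, div_mul_cancel₀ _ (hz x hx), th_th h2 hc]
  · intro G _ r s t ht H
    refine not_group h2 (g V c a) a c (A ∪ B) (by rw [hcard]; omega) ?_ ?_ G r s t ht H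
    · intro x hx
      rw [Finset.mem_union, not_or] at hx
      refine lin ?_ ?_
      · intro h; exact hx.1 (Finset.mem_filter.2 ⟨Finset.mem_univ _, h⟩)
      · intro h; exact hx.2 (Finset.mem_filter.2 ⟨Finset.mem_univ _, h⟩)
    · rw [g_c h2 hc]
      intro h
      apply ha1
      have h3 : (a - 1) * c = 0 := by linear_combination -h
      rcases mul_eq_zero.1 h3 with h4 | h4
      · exact sub_eq_zero.1 h4
      · exact absurd h4 hc0

end Pool.Agent.H10.PT
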