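import Pool.Agent.H10.PT.Grp

set_option autoImplicit false

/-!
# [H10 PT Trn] transport to `Fin (2 ^ k)`, `k ≥ 6`
-/

namespace Pool.Agent.H10.PT

/-- transport: `g` injective, `g + id`, `g ∘ g + id` injective, one fixed point `c`, one cycle on the rest, not group based -/
theorem trn (k : ℕ) (F : Type) [Field F] [Fintype F] (h2 : (2 : F) = 0) (hcard : Fintype.card F = 2 ^ k) (g : F → F) (c : F)
    (hgc : g c = c) (g1 : ∀ x y, g x = g y → x = y) (g2 : ∀ x y, g x + x = g y + y → x = y)
    (g3 : ∀ x y, g (g x) + x = g (g y) + y → x = y) (g4 : ∀ x y, x ≠ c → y ≠ c → ∃ n : ℕ, g^[n] x = y)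
    (g5 : ∀ (G : Type) [Group G] (r s t : F → G), Function.Injective t → (∀ i j : F, t (i + g (j - i)) = r i * s j) → False) :
    ∃ L : Fin (2 ^ k) → Equiv.Perm (Fin (2 ^ k)),
    (∀ j, Function.Injective (fun i => L i j)) ∧
    (∀ i, (∃! x, L i x = x) ∧ ∀ x y, L i x ≠ x → L i y ≠ y → ∃ n : ℕ, ((L i) ^ n) x = y) ∧
    (¬ ∃ (G : Type) (_ : Group G) (r c s : Fin (2 ^ k) ≃ G), ∀ i j, s (L i j) = r i * c j) ∧
    ∀ j, Function.Injective (fun i => (L i * L i) j) := by
  classical
  let ε : F ≃ Fin (2 ^ k) := Fintype.equivFinOfCardEq hcard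
  let P : Equiv.Perm F := Equiv.ofBijective g (Finite.injective_iff_bijective.1 (fun x y h => g1 x y h))
  have hP : ∀ x, P x = g x := fun x => rfl
  have hPk : ∀ (n : ℕ) (x : F), (P ^ n) x = g^[n] x := by
    intro n
    induction n with
    | zero => intro x; rfl
    | succ n ih =>
      intro x
      rw [pow_succ, Equiv.Perm.mul_apply, ih, Function.iterate_succ_apply, hP]
  let row : F → Equiv.Perm F := fun i => (Equiv.subRight i).trans (P.trans (Equiv.addLeft i))
  let L : Fin (2 ^ k) → Equiv.Perm (Fin (2 ^ k)) :=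
    fun i => (ε.symm.trans (row (ε.symm i))).trans ε
  have hL : ∀ i x, L i x = ε (ε.symm i + g (ε.symm x - ε.symm i)) := fun i x => rfl
  have hpow : ∀ (i : Fin (2 ^ k)) (l : ℕ) (x : Fin (2 ^ k)),
      ((L i) ^ l) x = ε (ε.symm i + (P ^ l) (ε.symm x - ε.symm i)) := by
    intro i l
    induction l with
    | zero => intro x; simp
    | succ n ih =>
      intro x
      rw [pow_succ, Equiv.Perm.mul_apply, ih, hL, Equiv.symm_apply_apply, pow_succ, Equiv.Perm.mul_apply, hP,
        add_sub_cancel_left]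
  refine ⟨L, ?_, ?_, ?_, ?_⟩
  · intro j i i' hij
    have h1 : L i j = L i' j := hij
    rw [hL, hL] at h1
    have h3 := ε.injective h1
    have h4 : g (ε.symm j - ε.symm i) + (ε.symm j - ε.symm i) =
        g (ε.symm j - ε.symm i') + (ε.symm j - ε.symm i') := by
      linear_combination h3 - (ε.symm i - ε.symm i') * h2
    have h5 := g2 _ _ h4
    exact ε.symm.injective (sub_right_injective h5)
  · intro i
    have fix : ∀ x, L i x = x ↔ ε.symm x - ε.symm i = c := by
      intro x
      rw [hL]
      constructor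
      · intro hx
        have h1 : ε.symm i + g (ε.symm x - ε.symm i) = ε.symm x := by
          apply ε.injective; rw [hx, Equiv.apply_symm_apply]
        have h3 : g (ε.symm x - ε.symm i) + (ε.symm x - ε.symm i) = g c + c := by
          rw [hgc]
          linear_combination h1 + (ε.symm x - ε.symm i - c) * h2
        exact g2 _ _ h3
      · intro hx
        rw [hx, hgc, ← hx]
        rw [add_sub_cancel, Equiv.apply_symm_apply]
    refine ⟨⟨ε (ε.symm i + c), ?_, fun x hx => ?_⟩, ?_⟩
    · refine (fix _).2 ?_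
      rw [Equiv.symm_apply_apply]; ring
    · have := (fix x).1 hx
      rw [← this, add_sub_cancel, Equiv.apply_symm_apply]
    intro x y hx hy
    have hx' : ε.symm x - ε.symm i ≠ c := fun h0 => hx ((fix x).2 h0)
    have hy' : ε.symm y - ε.symm i ≠ c := fun h0 => hy ((fix y).2 h0)
    obtain ⟨n, hn⟩ := g4 _ _ hx' hy'
    refine ⟨n, ?_⟩
    rw [hpow, hPk, hn, add_sub_cancel, Equiv.apply_symm_apply]
  · rintro ⟨G, hG, r, c', s, H⟩
    refine g5 G (fun i => r (ε i)) (fun j => c' (ε j)) (fun x => s (ε x)) (s.injective.comp ε.injective) fun i j => ?_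
    have h1 := H (ε i) (ε j)
    rw [hL, Equiv.symm_apply_apply, Equiv.symm_apply_apply] at h1
    exact h1
  · intro j i i' hij
    have h1 : ((L i) ^ 2) j = ((L i') ^ 2) j := by
      rw [pow_two, pow_two]; exact hij
    rw [hpow, hpow] at h1
    have h3 := ε.injective h1
    rw [hPk, hPk] at h3
    have h4 : g (g (ε.symm j - ε.symm i)) + (ε.symm j - ε.symm i) =
        g (g (ε.symm j - ε.symm i')) + (ε.symm j - ε.symm i') := by
      have h6 : ∀ x, g^[2] x = g (g x) := fun x => rfl
      rw [h6, h6] at h3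
      linear_combination h3 - (ε.symm i - ε.symm i') * h2
    have h5 := g3 _ _ h4
    exact ε.symm.injective (sub_right_injective h5)

end Pool.Agent.H10.PT
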